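import Pool.Agent.helper43.MS.Defs

/-!
# Module N0: the metric of `N` in charts
-/

open Bundle Manifold MeasureTheory Set Filter Topology
open scoped ContDiff ENNReal

namespace Pool.Agent.helper43.MS

section N0
variable {n : ℕ} {N : Type*} [TopologicalSpace N] [ChartedSpace (E n) N]
  [IsManifold 𝓘(ℝ, E n) ∞ N]
  [RiemannianBundle (fun q : N => TangentSpace 𝓘(ℝ, E n) q)]
  [IsContMDiffRiemannianBundle 𝓘(ℝ, E n) ∞ (E n) (fun q : N => TangentSpace 𝓘(ℝ, E n) q)]

/-- The pulled back metric coefficients are smooth. -/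
theorem N91_inner_contDiffOn {k : ℕ} {f : E k → N} {s : Set (E k)} (hs : IsOpen s)
    (hf : ContMDiffOn 𝓘(ℝ, E k) 𝓘(ℝ, E n) ∞ f s) (a b : E k) :
    ContDiffOn ℝ ∞ (fun y => inner ℝ (mfderiv 𝓘(ℝ, E k) 𝓘(ℝ, E n) f y a)
      (mfderiv 𝓘(ℝ, E k) 𝓘(ℝ, E n) f y b)) s := by
  have key : ∀ c : E k, ContMDiffOn 𝓘(ℝ, E k) (𝓘(ℝ, E n).prod 𝓘(ℝ, E n)) ∞
      (fun y => (⟨f y, mfderiv 𝓘(ℝ, E k) 𝓘(ℝ, E n) f y c⟩ :
        TotalSpace (E n) (fun q : N => TangentSpace 𝓘(ℝ, E n) q))) s := by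
    intro c
    have h1 := hf.contMDiffOn_tangentMapWithin (m := ∞) (by simp) hs.uniqueMDiffOn
    have h2 : ContMDiffOn 𝓘(ℝ, E k) 𝓘(ℝ, E k).tangent ∞
        (fun y => (⟨y, c⟩ : TangentBundle 𝓘(ℝ, E k) (E k))) s := by
      have : ContMDiff 𝓘(ℝ, E k) 𝓘(ℝ, E k).tangent ∞
          (fun y => (⟨y, c⟩ : TangentBundle 𝓘(ℝ, E k) (E k))) := by
        intro y
        exact contMDiffAt_vectorSpace_iff_contDiffAt.2 contDiffAt_const
      exact this.contMDiffOn
    have h3 := h1.comp h2 (fun y hy => hy)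
    refine h3.congr fun y hy => ?_
    simp only [Function.comp_apply, tangentMapWithin]
    rw [mfderivWithin_of_isOpen hs hy]
  have h := (key a).inner_bundle (key b)
  exact contMDiffOn_iff_contDiffOn.1 h

/-- Gram matrices of injective maps. -/
theorem N91_gram_posDef {k : ℕ} {F : Type*} [NormedAddCommGroup F] [InnerProductSpace ℝ F]
    (L : E k →ₗ[ℝ] F) (hL : Function.Injective L) :
    (Matrix.of fun i j : Fin k => inner ℝ (L (bv i)) (L (bv j))).PosDef := by
  have h1 : LinearIndependent ℝ (fun i : Fin k => L (bv i)) := by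
    have h2 : LinearIndependent ℝ (fun i : Fin k => (bv i : E k)) := by
      have h3 := (EuclideanSpace.basisFun (Fin k) ℝ).toBasis.linearIndependent
      have h4 : (⇑(EuclideanSpace.basisFun (Fin k) ℝ).toBasis) = fun i : Fin k => (bv i : E k) := by
        ext i : 1
        simp
      rw [h4] at h3
      exact h3
    exact h2.map' L (LinearMap.ker_eq_bot.2 hL)
  exact Matrix.posDef_gram_of_linearIndependent h1

theorem metricN_contDiffOn (q : N) (a b : Fin n) :
    ContDiffOn ℝ ∞ (fun y => metricN q y a b) (chartAt (E n) q).target :=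
  N91_inner_contDiffOn (chartAt (E n) q).open_target contMDiffOn_chart_symm _ _

theorem metricN_posDef (q : N) {y : E n} (hy : y ∈ (chartAt (E n) q).target) :
    (metricN q y).PosDef := by
  have h1 : IsManifold 𝓘(ℝ, E n) 1 N := IsManifold.of_le (n := ∞) (by simp)
  have h2 := (mdifferentiable_chart (I := 𝓘(ℝ, E n)) q).symm.mfderiv_injective
    (show y ∈ (chartAt (E n) q).symm.source from hy)
  exact N91_gram_posDef (F := TangentSpace 𝓘(ℝ, E n) ((chartAt (E n) q).symm y))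
    (mfderiv 𝓘(ℝ, E n) 𝓘(ℝ, E n) (chartAt (E n) q).symm y).toLinearMap h2

end N0

end Pool.Agent.helper43.MS
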