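import Pool.Agent.helper43.MS.Defs
import Pool.Agent.helper91.MS.N0

/-!
# Module M0: the induced metric of `M` in charts
-/

open Bundle Manifold MeasureTheory Set Filter Topology
open scoped ContDiff ENNReal Matrix

namespace Pool.Agent.helper43.MS

section M0
variable {m n : ℕ} {M : Type*} [TopologicalSpace M] [ChartedSpace (E m) M]
  [IsManifold 𝓘(ℝ, E m) ∞ M]
  {N : Type*} [TopologicalSpace N] [ChartedSpace (E n) N] [IsManifold 𝓘(ℝ, E n) ∞ N]

theorem M91_mdiff_symm {p : M} {x : E m} (hx : x ∈ (chartAt (E m) p).target) :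
    ContMDiffAt 𝓘(ℝ, E m) 𝓘(ℝ, E m) ∞ (chartAt (E m) p).symm x :=
  (contMDiffOn_chart_symm (I := 𝓘(ℝ, E m)) (n := ∞) (x := p)).contMDiffAt
    ((chartAt (E m) p).open_target.mem_nhds hx)

theorem M91_contMDiffAt {φ : M → N} (h : IsImm m n φ) {p : M} {q : N} {x : E m}
    (hx : x ∈ (chartAt (E m) p).target)
    (hq : φ ((chartAt (E m) p).symm x) ∈ (chartAt (E n) q).source) :
    ContMDiffAt 𝓘(ℝ, E m) 𝓘(ℝ, E n) ∞ (locRep m n φ p q) x := by
  have h1 := M91_mdiff_symm hx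
  have h2 := h.1 ((chartAt (E m) p).symm x)
  have h3 : ContMDiffAt 𝓘(ℝ, E n) 𝓘(ℝ, E n) ∞ (chartAt (E n) q)
      (φ ((chartAt (E m) p).symm x)) :=
    (contMDiffOn_chart (I := 𝓘(ℝ, E n)) (n := ∞) (x := q)).contMDiffAt
      ((chartAt (E n) q).open_source.mem_nhds hq)
  exact h3.comp x (h2.comp x h1)

theorem locRep_contDiffAt {φ : M → N} (h : IsImm m n φ) {p : M} {q : N} {x : E m}
    (hx : x ∈ (chartAt (E m) p).target)
    (hq : φ ((chartAt (E m) p).symm x) ∈ (chartAt (E n) q).source) :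
    ContDiffAt ℝ ∞ (locRep m n φ p q) x :=
  contMDiffAt_iff_contDiffAt.1 (M91_contMDiffAt h hx hq)

/-- coordinates -/
theorem M91_sum_bv {k : ℕ} (v : E k) : v = ∑ i, v i • (bv i : E k) := by
  have := (EuclideanSpace.basisFun (Fin k) ℝ).sum_repr v
  simpa using this.symm

variable [RiemannianBundle (fun q : N => TangentSpace 𝓘(ℝ, E n) q)]
  [IsContMDiffRiemannianBundle 𝓘(ℝ, E n) ∞ (E n) (fun q : N => TangentSpace 𝓘(ℝ, E n) q)]

/-- the inner product of the tangent space at `z`, as a function on the model space -/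
noncomputable def M91_B (z : N) (v w : E n) : ℝ :=
  @inner ℝ (TangentSpace 𝓘(ℝ, E n) z) _ v w

omit [IsManifold 𝓘(ℝ, E n) ∞ N]
  [IsContMDiffRiemannianBundle 𝓘(ℝ, E n) ∞ (E n) (fun q : N => TangentSpace 𝓘(ℝ, E n) q)] in
theorem M91_B_sum {k : ℕ} (z : N) (L : E k →L[ℝ] E n) (v w : E k) :
    M91_B z (L v) (L w) = ∑ a, ∑ b, M91_B z (L (bv a)) (L (bv b)) * v a * w b := by
  have hv : L v = ∑ a, v a • L (bv a) := by
    conv_lhs => rw [M91_sum_bv v]
    rw [map_sum]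
    exact Finset.sum_congr rfl fun i _ => by rw [map_smul]
  have hw : L w = ∑ a, w a • L (bv a) := by
    conv_lhs => rw [M91_sum_bv w]
    rw [map_sum]
    exact Finset.sum_congr rfl fun i _ => by rw [map_smul]
  rw [hv, hw]
  unfold M91_B
  have key : ∀ (F : Type) [NormedAddCommGroup F] [InnerProductSpace ℝ F] (g : Fin k → F),
      inner ℝ (∑ a, v a • g a) (∑ b, w b • g b) =
        ∑ a, ∑ b, inner ℝ (g a) (g b) * v a * w b := by
    intro F _ _ g
    rw [sum_inner]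
    refine Finset.sum_congr rfl fun a _ => ?_
    rw [inner_sum]
    refine Finset.sum_congr rfl fun b _ => ?_
    rw [real_inner_smul_left, real_inner_smul_right]
    ring
  exact key (TangentSpace 𝓘(ℝ, E n) z) (fun a => L (bv a))

theorem metricM_eq {φ : M → N} (h : IsImm m n φ) {p : M} {q : N} {x : E m}
    (hx : x ∈ (chartAt (E m) p).target)
    (hq : φ ((chartAt (E m) p).symm x) ∈ (chartAt (E n) q).source) (i j : Fin m) :
    metricM m n φ p x i j = ∑ a, ∑ b, metricN q (locRep m n φ p q x) a b *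
      pd i (fun z => locRep m n φ p q z a) x * pd j (fun z => locRep m n φ p q z b) x := by
  have hs : (chartAt (E n) q).symm (locRep m n φ p q x) = φ ((chartAt (E m) p).symm x) :=
    (chartAt (E n) q).left_inv hq
  have hloc := locRep_contDiffAt h hx hq
  have hd : DifferentiableAt ℝ (locRep m n φ p q) x := hloc.differentiableAt (by simp)
  have hy : locRep m n φ p q x ∈ (chartAt (E n) q).target := (chartAt (E n) q).map_source hq
  have hev : φ ∘ (chartAt (E m) p).symm =ᶠ[𝓝 x] (chartAt (E n) q).symm ∘ locRep m n φ p q := by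
    have h1 : ContinuousAt (φ ∘ (chartAt (E m) p).symm) x :=
      (h.1.continuous.continuousAt).comp
        ((chartAt (E m) p).symm.continuousAt (show x ∈ (chartAt (E m) p).symm.source from hx))
    have h2 := h1.preimage_mem_nhds ((chartAt (E n) q).open_source.mem_nhds hq)
    filter_upwards [h2] with z hz
    exact ((chartAt (E n) q).left_inv hz).symm
  obtain ⟨A, hA⟩ : ∃ A : E n →L[ℝ] E n,
      A = mfderiv 𝓘(ℝ, E n) 𝓘(ℝ, E n) (chartAt (E n) q).symm (locRep m n φ p q x) := ⟨_, rfl⟩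
  obtain ⟨L, hL⟩ : ∃ L : E m →L[ℝ] E n, L = fderiv ℝ (locRep m n φ p q) x := ⟨_, rfl⟩
  have happ : ∀ v : E m,
      (mfderiv 𝓘(ℝ, E m) 𝓘(ℝ, E n) (φ ∘ (chartAt (E m) p).symm) x : E m →L[ℝ] E n) v =
        A (L v) := by
    intro v
    have h1 : (mfderiv 𝓘(ℝ, E m) 𝓘(ℝ, E n) (φ ∘ (chartAt (E m) p).symm) x : E m →L[ℝ] E n) =
      mfderiv 𝓘(ℝ, E m) 𝓘(ℝ, E n) ((chartAt (E n) q).symm ∘ locRep m n φ p q) x := hev.mfderiv_eq
    rw [h1, hA, hL]
    have h2 := mfderiv_comp x ((M91_mdiff_symm (m := n) hy).mdifferentiableAt (by simp))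
      ((M91_contMDiffAt h hx hq).mdifferentiableAt (by simp))
    rw [mfderiv_eq_fderiv (f := locRep m n φ p q)] at h2
    exact DFunLike.congr_fun h2 v
  have hpd : ∀ (i : Fin m) (a : Fin n), pd i (fun z => locRep m n φ p q z a) x =
      (L (bv i)) a := by
    intro i a
    unfold pd
    have h1 : (fun z => locRep m n φ p q z a) =
        (EuclideanSpace.proj (𝕜 := ℝ) a : E n →L[ℝ] ℝ) ∘ locRep m n φ p q := rfl
    rw [h1, ((EuclideanSpace.proj (𝕜 := ℝ) a : E n →L[ℝ] ℝ).hasFDerivAt.comp x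
      hd.hasFDerivAt).fderiv, hL]
    rfl
  have hM : metricM m n φ p x i j = M91_B (φ ((chartAt (E m) p).symm x))
      (A (L (bv i))) (A (L (bv j))) := by
    rw [← happ, ← happ]
    rfl
  have hN : ∀ a b, metricN q (locRep m n φ p q x) a b =
      M91_B ((chartAt (E n) q).symm (locRep m n φ p q x)) (A (bv a)) (A (bv b)) := by
    intro a b
    rw [hA]
    rfl
  rw [hM, M91_B_sum]
  refine Finset.sum_congr rfl fun a _ => Finset.sum_congr rfl fun b _ => ?_
  rw [hN, hs, hpd, hpd]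

theorem M91_comp_contMDiffOn {φ : M → N} (h : IsImm m n φ) (p : M) :
    ContMDiffOn 𝓘(ℝ, E m) 𝓘(ℝ, E n) ∞ (φ ∘ (chartAt (E m) p).symm) (chartAt (E m) p).target :=
  fun _ hx => (h.1.contMDiffAt.comp _ (M91_mdiff_symm hx)).contMDiffWithinAt

theorem metricM_contDiffOn {φ : M → N} (h : IsImm m n φ) (p : M) (i j : Fin m) :
    ContDiffOn ℝ ∞ (fun x => metricM m n φ p x i j) (chartAt (E m) p).target :=
  N91_inner_contDiffOn (chartAt (E m) p).open_target (M91_comp_contMDiffOn h p) _ _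

theorem M91_mfderiv_comp {φ : M → N} (h : IsImm m n φ) {p : M} {x : E m}
    (hx : x ∈ (chartAt (E m) p).target) :
    (mfderiv 𝓘(ℝ, E m) 𝓘(ℝ, E n) (φ ∘ (chartAt (E m) p).symm) x : E m →L[ℝ] E n) =
      (mfderiv 𝓘(ℝ, E m) 𝓘(ℝ, E n) φ ((chartAt (E m) p).symm x) : E m →L[ℝ] E n).comp
        (mfderiv 𝓘(ℝ, E m) 𝓘(ℝ, E m) (chartAt (E m) p).symm x : E m →L[ℝ] E m) :=
  mfderiv_comp x (h.1.contMDiffAt.mdifferentiableAt (by simp))
    ((M91_mdiff_symm hx).mdifferentiableAt (by simp))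

theorem M91_symm_injective {p : M} {x : E m} (hx : x ∈ (chartAt (E m) p).target) :
    Function.Injective (mfderiv 𝓘(ℝ, E m) 𝓘(ℝ, E m) (chartAt (E m) p).symm x :
      E m →L[ℝ] E m) := by
  have h1 : IsManifold 𝓘(ℝ, E m) 1 M := IsManifold.of_le (n := ∞) (by simp)
  exact (mdifferentiable_chart (I := 𝓘(ℝ, E m)) p).symm.mfderiv_injective
    (show x ∈ (chartAt (E m) p).symm.source from hx)

theorem metricM_posDef {φ : M → N} (h : IsImm m n φ) {p : M} {x : E m}
    (hx : x ∈ (chartAt (E m) p).target) : (metricM m n φ p x).PosDef := by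
  have hinj : Function.Injective
      (mfderiv 𝓘(ℝ, E m) 𝓘(ℝ, E n) (φ ∘ (chartAt (E m) p).symm) x : E m →L[ℝ] E n) := by
    rw [M91_mfderiv_comp h hx]
    exact (h.2 _).comp (M91_symm_injective hx)
  exact N91_gram_posDef (F := TangentSpace 𝓘(ℝ, E n) ((φ ∘ (chartAt (E m) p).symm) x))
    (mfderiv 𝓘(ℝ, E m) 𝓘(ℝ, E n) (φ ∘ (chartAt (E m) p).symm) x).toLinearMap hinj

/-- the Gram matrix at `p` is positive definite -/
theorem gram_posDef {φ : M → N} (h : IsImm m n φ) (p : M) : (gram m n φ p).PosDef :=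
  N91_gram_posDef (F := TangentSpace 𝓘(ℝ, E n) (φ p))
    (mfderiv 𝓘(ℝ, E m) 𝓘(ℝ, E n) φ p).toLinearMap (h.2 p)

/-- gradients in a chart -/
theorem gradInner_chart {φ : M → N} (h : IsImm m n φ) {p : M} {x : E m}
    (hx : x ∈ (chartAt (E m) p).target) {u v : M → ℝ}
    (hu : MDifferentiableAt 𝓘(ℝ, E m) 𝓘(ℝ, ℝ) u ((chartAt (E m) p).symm x))
    (hv : MDifferentiableAt 𝓘(ℝ, E m) 𝓘(ℝ, ℝ) v ((chartAt (E m) p).symm x)) :
    gradInner m n φ u v ((chartAt (E m) p).symm x) =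
      ∑ i, ∑ j, (metricM m n φ p x)⁻¹ i j *
        pd i (u ∘ (chartAt (E m) p).symm) x * pd j (v ∘ (chartAt (E m) p).symm) x := by
  classical
  set p' := (chartAt (E m) p).symm x with hp'
  obtain ⟨S, hS⟩ : ∃ S : E m →L[ℝ] E m,
      S = mfderiv 𝓘(ℝ, E m) 𝓘(ℝ, E m) (chartAt (E m) p).symm x := ⟨_, rfl⟩
  obtain ⟨P, hP⟩ : ∃ P : E m →L[ℝ] E n, P = mfderiv 𝓘(ℝ, E m) 𝓘(ℝ, E n) φ p' := ⟨_, rfl⟩
  let B : Matrix (Fin m) (Fin m) ℝ := fun k i => (S (bv i)) k
  let G : Matrix (Fin m) (Fin m) ℝ := gram m n φ p'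
  -- the differentials
  have hpd : ∀ w : M → ℝ, MDifferentiableAt 𝓘(ℝ, E m) 𝓘(ℝ, ℝ) w p' →
      ∀ i, pd i (w ∘ (chartAt (E m) p).symm) x = (Bᵀ.mulVec (diffM m w p')) i := by
    intro w hw i
    obtain ⟨W, hW⟩ : ∃ W : E m →L[ℝ] ℝ, W = mfderiv 𝓘(ℝ, E m) 𝓘(ℝ, ℝ) w p' := ⟨_, rfl⟩
    unfold pd
    have h1 : ∀ y : E m, (fderiv ℝ (w ∘ (chartAt (E m) p).symm) x : E m →L[ℝ] ℝ) y =
        W (S y) := by
      intro y
      rw [← mfderiv_eq_fderiv, hW, hS]
      have h2 := mfderiv_comp x hw ((M91_mdiff_symm hx).mdifferentiableAt (by simp))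
      exact DFunLike.congr_fun h2 y
    rw [h1]
    conv_lhs => rw [M91_sum_bv (S (bv i))]
    rw [map_sum]
    simp only [Matrix.mulVec, dotProduct, Matrix.transpose_apply]
    refine Finset.sum_congr rfl fun k _ => ?_
    rw [map_smul, smul_eq_mul, hW]
    rfl
  -- the metric
  have hmet : metricM m n φ p x = Bᵀ * G * B := by
    ext i j
    have h0 : ∀ y : E m,
        (mfderiv 𝓘(ℝ, E m) 𝓘(ℝ, E n) (φ ∘ (chartAt (E m) p).symm) x : E m →L[ℝ] E n) y =
        P (S y) := by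
      intro y
      rw [M91_mfderiv_comp h hx, hP, hS]
      rfl
    have h1 : metricM m n φ p x i j = M91_B (φ p') (P (S (bv i))) (P (S (bv j))) := by
      rw [← h0, ← h0]
      rfl
    have hG : ∀ a b, M91_B (φ p') (P (bv a)) (P (bv b)) = G a b := by
      intro a b
      rw [hP]
      rfl
    rw [h1, M91_B_sum]
    simp only [Matrix.mul_apply, Matrix.transpose_apply, Finset.sum_mul, hG]
    rw [Finset.sum_comm]
    refine Finset.sum_congr rfl fun b _ => Finset.sum_congr rfl fun a _ => ?_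
    show G a b * S (bv i) a * S (bv j) b = S (bv i) a * G a b * S (bv j) b
    ring
  have hdet : IsUnit B.det := by
    have h1 := (metricM_posDef h hx).det_pos
    rw [hmet, Matrix.det_mul] at h1
    rw [isUnit_iff_ne_zero]
    intro h0
    rw [h0, mul_zero] at h1
    exact lt_irrefl _ h1
  have hinv : (metricM m n φ p x)⁻¹ = B⁻¹ * G⁻¹ * Bᵀ⁻¹ := by
    rw [hmet, Matrix.mul_inv_rev, Matrix.mul_inv_rev, Matrix.mul_assoc]
  have hBT : IsUnit Bᵀ.det := by rwa [Matrix.det_transpose]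
  have hquad : ∀ (A : Matrix (Fin m) (Fin m) ℝ) (a b : Fin m → ℝ),
      ∑ i, ∑ j, A i j * a i * b j = dotProduct a (A.mulVec b) := by
    intro A a b
    simp only [dotProduct, Matrix.mulVec, Finset.mul_sum]
    refine Finset.sum_congr rfl fun i _ => Finset.sum_congr rfl fun j _ => ?_
    ring
  have hL : gradInner m n φ u v p' = dotProduct (diffM m u p') (G⁻¹.mulVec (diffM m v p')) :=
    hquad _ _ _
  rw [hL]
  have hR : ∑ i, ∑ j, (metricM m n φ p x)⁻¹ i j *
        pd i (u ∘ (chartAt (E m) p).symm) x * pd j (v ∘ (chartAt (E m) p).symm) x =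
      dotProduct (Bᵀ.mulVec (diffM m u p')) ((metricM m n φ p x)⁻¹.mulVec
        (Bᵀ.mulVec (diffM m v p'))) := by
    rw [← hquad]
    refine Finset.sum_congr rfl fun i _ => Finset.sum_congr rfl fun j _ => ?_
    rw [hpd u hu, hpd v hv]
  rw [hR, hinv, Matrix.mulVec_mulVec, Matrix.mul_assoc, Matrix.mul_assoc,
    Matrix.nonsing_inv_mul _ hBT, Matrix.mul_one, Matrix.mulVec_transpose,
    ← Matrix.dotProduct_mulVec, Matrix.mulVec_mulVec, ← Matrix.mul_assoc,
    Matrix.mul_nonsing_inv _ hdet, Matrix.one_mul]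

end M0

end Pool.Agent.helper43.MS
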