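import Pool.Agent.helper43.MS.Defs

/-!
# Module A: the abstract spectral theorem
-/

open Bundle Manifold MeasureTheory Set Filter Topology
open scoped ContDiff ENNReal

namespace Pool.Agent.helper43.MS

section A

/-- Eigenvectors with eigenvalues bounded below are finite in number. -/
theorem A91_finite {H : Type*} [NormedAddCommGroup H] [InnerProductSpace ℝ H]
    [CompleteSpace H] (T : H →L[ℝ] H) (hT : IsCompactOperator T) (s : Set H)
    (hs : Orthonormal ℝ ((↑) : s → H)) (μ : H → ℝ) (hμ : ∀ f ∈ s, T f = μ f • f)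
    (δ : ℝ) (hδ : 0 < δ) : {f ∈ s | δ ≤ μ f}.Finite := by
  by_contra hinf
  have hinf' : {f ∈ s | δ ≤ μ f}.Infinite := hinf
  let g := hinf'.natEmbedding
  have hg : ∀ k, (g k : H) ∈ s := fun k => (g k).2.1
  have hgδ : ∀ k, δ ≤ μ (g k : H) := fun k => (g k).2.2
  have hinj : ∀ k l, k ≠ l → (g k : H) ≠ g l := fun k l hkl h =>
    hkl (g.injective (Subtype.ext h))
  have hnorm : ∀ k, ‖(g k : H)‖ = 1 := fun k => hs.1 ⟨g k, hg k⟩
  have horth : ∀ k l, k ≠ l → inner ℝ (g k : H) (g l : H) = 0 := fun k l hkl =>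
    hs.2 (i := ⟨g k, hg k⟩) (j := ⟨g l, hg l⟩) (fun h => by
      have h' : (g k : H) = g l := congrArg (fun x : s => (x : H)) h
      exact hinj k l hkl h')
  have hc : IsCompact (closure (T '' Metric.closedBall 0 1)) :=
    hT.isCompact_closure_image_closedBall (f := (T : H →ₗ[ℝ] H)) 1
  obtain ⟨z, -, φ, hφ, hz⟩ := hc.tendsto_subseq (x := fun k => T (g k)) (fun k =>
    subset_closure ⟨g k, by simp [hnorm k], rfl⟩)
  have hcau := hz.cauchySeq
  rw [Metric.cauchySeq_iff'] at hcau
  obtain ⟨N, hN⟩ := hcau δ hδ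
  have h1 := hN (N + 1) (Nat.le_succ N)
  have hne : φ (N + 1) ≠ φ N := (hφ (Nat.lt_succ_self N)).ne'
  have h2 : dist (T (g (φ (N + 1)) : H)) (T (g (φ N) : H)) ^ 2 =
      μ (g (φ (N + 1))) ^ 2 + μ (g (φ N)) ^ 2 := by
    rw [dist_eq_norm, hμ _ (hg _), hμ _ (hg _), @norm_sub_sq_real, norm_smul, norm_smul,
      inner_smul_left, inner_smul_right, horth _ _ hne, hnorm, hnorm]
    simp
  have h3 : δ ^ 2 ≤ dist (T (g (φ (N + 1)) : H)) (T (g (φ N) : H)) ^ 2 := by
    rw [h2]
    have h4 := hgδ (φ (N + 1))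
    nlinarith [sq_nonneg (μ (g (φ N)))]
  have h5 : δ ≤ dist (T (g (φ (N + 1)) : H)) (T (g (φ N) : H)) :=
    le_of_sq_le_sq h3 dist_nonneg
  exact absurd h1 (not_lt.2 h5)

/-- A compact selfadjoint operator without kernel has an orthonormal family of eigenvectors whose
span is dense. -/
theorem A91_basis {H : Type*} [NormedAddCommGroup H] [InnerProductSpace ℝ H]
    [CompleteSpace H] (T : H →L[ℝ] H) (hT : IsCompactOperator T)
    (hsymm : (T : H →ₗ[ℝ] H).IsSymmetric) (hinj : ∀ x, T x = 0 → x = 0) :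
    ∃ s : Set H, Orthonormal ℝ ((↑) : s → H) ∧ (Submodule.span ℝ s).topologicalClosure = ⊤ ∧
      ∀ f ∈ s, ∃ μ : ℝ, T f = μ • f := by
  have hfin : ∀ μ : ℝ, FiniteDimensional ℝ (Module.End.eigenspace (T : H →ₗ[ℝ] H) μ) := by
    intro μ
    by_cases hμ : μ = 0
    · subst hμ
      have : Module.End.eigenspace (T : H →ₗ[ℝ] H) 0 = ⊥ := by
        rw [Submodule.eq_bot_iff]
        intro x hx
        rw [Module.End.mem_eigenspace_iff] at hx
        exact hinj x (by simpa using hx)
      rw [this]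
      infer_instance
    · exact ContinuousLinearMap.finite_dimensional_eigenspace hT μ hμ
  have hb : ∀ μ : ℝ, ∃ (w : Set (Module.End.eigenspace (T : H →ₗ[ℝ] H) μ)),
      Orthonormal ℝ ((↑) : w → Module.End.eigenspace (T : H →ₗ[ℝ] H) μ) ∧
      ∀ x : Module.End.eigenspace (T : H →ₗ[ℝ] H) μ, (∀ e ∈ w, inner ℝ e x = 0) → x = 0 := by
    intro μ
    have := hfin μ
    obtain ⟨w, b, hwb⟩ := exists_hilbertBasis ℝ (Module.End.eigenspace (T : H →ₗ[ℝ] H) μ)
    refine ⟨w, ?_, ?_⟩
    · rw [← hwb]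
      exact b.orthonormal
    · intro x hx
      have h1 : ∀ i, b.repr x i = 0 := by
        intro i
        rw [b.repr_apply_apply, hwb]
        exact hx i i.2
      have h2 : b.repr x = 0 := by
        ext i
        simpa using h1 i
      simpa using h2
  choose w hw1 hw2 using hb
  have hO : OrthogonalFamily ℝ (fun μ : ℝ => Module.End.eigenspace (T : H →ₗ[ℝ] H) μ) fun μ =>
      (Module.End.eigenspace (T : H →ₗ[ℝ] H) μ).subtypeₗᵢ := hsymm.orthogonalFamily_eigenspaces
  have hon := hO.orthonormal_sigma_orthonormal (α := fun μ => w μ)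
    (v_family := fun μ => ((↑) : w μ → Module.End.eigenspace (T : H →ₗ[ℝ] H) μ)) hw1
  refine ⟨_, hon.toSubtypeRange, ?_, ?_⟩
  · rw [Submodule.topologicalClosure_eq_top_iff, Submodule.eq_bot_iff]
    intro x hx
    have hbot := ContinuousLinearMap.orthogonalComplement_iSup_eigenspaces_eq_bot hT hsymm
    have hx' : x ∈ (⨆ μ, Module.End.eigenspace (T : H →ₗ[ℝ] H) μ)ᗮ := by
      rw [← Submodule.iInf_orthogonal, Submodule.mem_iInf]
      intro μ
      have := hfin μ
      -- the projection to the eigenspace vanishes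
      have h0 : (Module.End.eigenspace (T : H →ₗ[ℝ] H) μ).orthogonalProjectionOnto x = 0 := by
        apply hw2
        intro e he
        rw [Submodule.inner_orthogonalProjectionOnto_eq_of_mem_left]
        exact (Submodule.mem_orthogonal _ x).1 hx _ (Submodule.subset_span ⟨⟨μ, e, he⟩, rfl⟩)
      exact Submodule.orthogonalProjectionOnto_eq_zero_iff.1 h0
    rw [hbot] at hx'
    simpa using hx'
  · rintro f ⟨⟨μ, e⟩, rfl⟩
    exact ⟨μ, Module.End.mem_eigenspace_iff.1 e.1.2⟩

theorem A91_main {V H : Type*} [SeminormedAddCommGroup V] [InnerProductSpace ℝ V]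
    [NormedAddCommGroup H] [InnerProductSpace ℝ H] [CompleteSpace H] (J : V →ₗ[ℝ] H)
    (hJ : ∀ v, ‖J v‖ ≤ ‖v‖) (hdense : DenseRange J)
    (htb : TotallyBounded (J '' {v | ‖v‖ ≤ 1})) :
    ∃ (s : Set H) (lam : H → ℝ), Orthonormal ℝ ((↑) : s → H) ∧
      (Submodule.span ℝ s).topologicalClosure = ⊤ ∧ (∀ Λ : ℝ, {f ∈ s | lam f ≤ Λ}.Finite) ∧
      ∀ f ∈ s, ∃ u : ℕ → V, Tendsto (fun k => J (u k)) atTop (𝓝 f) ∧
        Tendsto (fun kl : ℕ × ℕ => ‖u kl.1 - u kl.2‖) (atTop ×ˢ atTop) (𝓝 0) ∧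
        ∀ v, Tendsto (fun k => inner ℝ (u k) v) atTop (𝓝 ((lam f + 1) * inner ℝ f (J v))) := by
  let W := UniformSpace.Completion V
  let Jc : V →L[ℝ] H := J.mkContinuous 1 (fun v => by simpa using hJ v)
  have hd : DenseRange (UniformSpace.Completion.toComplL : V →L[ℝ] W) :=
    UniformSpace.Completion.denseRange_coe
  have hui : IsUniformInducing (UniformSpace.Completion.toComplL : V →L[ℝ] W) :=
    UniformSpace.Completion.isUniformInducing_coe V
  let Jh : W →L[ℝ] H := Jc.extend (UniformSpace.Completion.toComplL : V →L[ℝ] W)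
  have hJh : ∀ v : V, Jh (v : W) = J v := fun v =>
    ContinuousLinearMap.extend_eq Jc hd hui v
  have hseq : ∀ y : W, ∃ u : ℕ → V, Tendsto (fun k => ((u k : V) : W)) atTop (𝓝 y) := by
    intro y
    have hy : y ∈ closure (range ((↑) : V → W)) := by
      rw [UniformSpace.Completion.denseRange_coe.closure_range]
      trivial
    obtain ⟨z, hz, hzy⟩ := mem_closure_iff_seq_limit.1 hy
    choose u hu using hz
    refine ⟨u, ?_⟩
    simpa [hu] using hzy
  -- compactness
  have hcomp : IsCompactOperator Jh := by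
    rw [show (Jh : W → H) = (Jh : W →ₗ[ℝ] H) from rfl]
    rw [isCompactOperator_iff_isCompact_closure_image_ball (Jh : W →ₗ[ℝ] H) zero_lt_one]
    have hK : IsCompact (closure (J '' {v | ‖v‖ ≤ 1})) :=
      htb.closure.isCompact_of_isClosed isClosed_closure
    refine hK.of_isClosed_subset isClosed_closure ?_
    refine closure_minimal ?_ isClosed_closure
    rintro _ ⟨y, hy, rfl⟩
    obtain ⟨u, hu⟩ := hseq y
    have h1 : Tendsto (fun k => Jh (u k : W)) atTop (𝓝 (Jh y)) :=
      (Jh.continuous.tendsto y).comp hu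
    refine mem_closure_of_tendsto h1 ?_
    have h2 : ∀ᶠ k in atTop, ((u k : V) : W) ∈ Metric.ball (0 : W) 1 :=
      hu.eventually (Metric.isOpen_ball.mem_nhds hy)
    filter_upwards [h2] with k hk
    refine ⟨u k, ?_, (hJh _).symm⟩
    have h3 : ‖((u k : V) : W)‖ < 1 := by simpa using hk
    rw [UniformSpace.Completion.norm_coe] at h3
    exact h3.le
  let A := ContinuousLinearMap.adjoint Jh
  let T : H →L[ℝ] H := Jh ∘L A
  have hTc : IsCompactOperator T := hcomp.comp_clm A
  have hTin : ∀ x y, inner ℝ (T x) y = inner ℝ (A x) (A y) := fun x y =>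
    (ContinuousLinearMap.adjoint_inner_right Jh (A x) y).symm
  have hTs : (T : H →ₗ[ℝ] H).IsSymmetric := by
    intro x y
    calc inner ℝ (T x) y = inner ℝ (A x) (A y) := hTin x y
      _ = inner ℝ (A y) (A x) := real_inner_comm _ _
      _ = inner ℝ (T y) x := (hTin y x).symm
      _ = inner ℝ x (T y) := real_inner_comm _ _
  have hinj : ∀ x, T x = 0 → x = 0 := by
    intro x hx
    have h1 : A x = 0 := by
      have := hTin x x
      rw [hx, inner_zero_left] at this
      exact inner_self_eq_zero.1 this.symm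
    have h2 : ∀ v, inner ℝ x (J v) = 0 := by
      intro v
      have := ContinuousLinearMap.adjoint_inner_left Jh (v : W) x
      rw [hJh] at this
      rw [← this]
      show inner ℝ (A x) (v : W) = 0
      rw [h1, inner_zero_left]
    have h3 : ∀ y, inner ℝ x y = 0 := by
      intro y
      refine hdense.induction_on (p := fun y => inner ℝ x y = 0) y ?_ h2
      exact isClosed_eq (by fun_prop) continuous_const
    exact inner_self_eq_zero.1 (h3 x)
  obtain ⟨s, hs1, hs2, hs3⟩ := A91_basis T hTc hTs hinj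
  have hnorm : ∀ f ∈ s, ‖f‖ = 1 := fun f hf => hs1.1 ⟨f, hf⟩
  have hμ : ∀ f ∈ s, T f = (inner ℝ (T f) f) • f := by
    intro f hf
    obtain ⟨μ, hμ⟩ := hs3 f hf
    have : inner ℝ (T f) f = μ := by
      rw [hμ, inner_smul_left, real_inner_self_eq_norm_sq, hnorm f hf]
      simp
    rw [this]
    exact hμ
  have hpos : ∀ f ∈ s, 0 < inner ℝ (T f) f := by
    intro f hf
    have h0 : f ≠ 0 := by
      intro h
      have := hnorm f hf
      rw [h, norm_zero] at this
      exact zero_ne_one this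
    have h1 : 0 ≤ inner ℝ (T f) f := by
      rw [hTin]
      exact real_inner_self_nonneg
    rcases h1.eq_or_lt with h2 | h2
    · exfalso
      apply h0
      apply hinj
      rw [hμ f hf, ← h2, zero_smul]
    · exact h2
  refine ⟨s, fun f => (inner ℝ (T f) f)⁻¹ - 1, hs1, hs2, ?_, ?_⟩
  · intro Λ
    by_cases hΛ : 0 < Λ + 1
    · refine (A91_finite T hTc s hs1 (fun f => inner ℝ (T f) f) hμ (Λ + 1)⁻¹ (by positivity)).subset
        ?_
      rintro f ⟨hf, hfΛ⟩
      refine ⟨hf, ?_⟩
      have h1 := hpos f hf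
      rw [inv_le_comm₀ hΛ h1]
      linarith
    · refine (Set.finite_empty).subset ?_
      rintro f ⟨hf, hfΛ⟩
      have h1 := inv_pos.2 (hpos f hf)
      exact absurd (by linarith : 0 < Λ + 1) hΛ
  · intro f hf
    set μ : ℝ := inner ℝ (T f) f with hμd
    have hμ0 : 0 < μ := hpos f hf
    obtain ⟨u, hu⟩ := hseq (μ⁻¹ • A f)
    refine ⟨u, ?_, ?_, ?_⟩
    · have h1 : Tendsto (fun k => Jh (u k : W)) atTop (𝓝 (Jh (μ⁻¹ • A f))) :=
        (Jh.continuous.tendsto _).comp hu
      have h2 : Jh (μ⁻¹ • A f) = f := by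
        rw [map_smul]
        show μ⁻¹ • T f = f
        rw [hμ f hf, ← hμd, smul_smul, inv_mul_cancel₀ hμ0.ne', one_smul]
      rw [h2] at h1
      simpa only [hJh] using h1
    · have h1 : Tendsto (fun kl : ℕ × ℕ => ((u kl.1 : V) : W) - ((u kl.2 : V) : W))
          (atTop ×ˢ atTop) (𝓝 (μ⁻¹ • A f - μ⁻¹ • A f)) :=
        (hu.comp tendsto_fst).sub (hu.comp tendsto_snd)
      rw [sub_self] at h1
      have h2 := h1.norm
      rw [norm_zero] at h2
      refine h2.congr fun kl => ?_
      rw [← UniformSpace.Completion.coe_sub, UniformSpace.Completion.norm_coe]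
    · intro v
      have h1 : Tendsto (fun k => inner ℝ ((u k : V) : W) ((v : V) : W)) atTop
          (𝓝 (inner ℝ (μ⁻¹ • A f) ((v : V) : W))) := hu.inner tendsto_const_nhds
      have h2 : inner ℝ (μ⁻¹ • A f) ((v : V) : W) = (μ⁻¹ - 1 + 1) * inner ℝ f (J v) := by
        rw [inner_smul_left]
        have := ContinuousLinearMap.adjoint_inner_left Jh (v : W) f
        rw [hJh] at this
        rw [show inner ℝ (A f) ((v : V) : W) = inner ℝ f (J v) from this]
        simp
      rw [h2] at h1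
      refine h1.congr fun k => ?_
      rw [UniformSpace.Completion.inner_coe]

theorem abstract_spectral {V H : Type*} [AddCommGroup V] [Module ℝ V] [NormedAddCommGroup H]
    [InnerProductSpace ℝ H] [CompleteSpace H] (J : V →ₗ[ℝ] H) (q : V →ₗ[ℝ] V →ₗ[ℝ] ℝ)
    (hsymm : ∀ u v, q u v = q v u) (hnonneg : ∀ u, 0 ≤ q u u) (hdense : DenseRange J)
    (htb : TotallyBounded (J '' {v | ‖J v‖ ^ 2 + q v v ≤ 1})) :
    ∃ (s : Set H) (lam : H → ℝ), Orthonormal ℝ ((↑) : s → H) ∧
      (Submodule.span ℝ s).topologicalClosure = ⊤ ∧ (∀ Λ : ℝ, {f ∈ s | lam f ≤ Λ}.Finite) ∧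
      ∀ f ∈ s, ∃ u : ℕ → V, Tendsto (fun k => J (u k)) atTop (𝓝 f) ∧
        Tendsto (fun kl : ℕ × ℕ => q (u kl.1 - u kl.2) (u kl.1 - u kl.2))
          (atTop ×ˢ atTop) (𝓝 0) ∧
        ∀ v, Tendsto (fun k => q (u k) v) atTop (𝓝 (lam f * inner ℝ f (J v))) := by
  let core : PreInnerProductSpace.Core ℝ V :=
    { inner := fun u v => inner ℝ (J u) (J v) + q u v
      conj_inner_symm := fun u v => by
        simp only [conj_trivial]
        rw [real_inner_comm, hsymm]
      re_inner_nonneg := fun u => by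
        simp only [RCLike.re_to_real]
        exact add_nonneg real_inner_self_nonneg (hnonneg u)
      add_left := fun u v z => by
        simp only [map_add, inner_add_left, LinearMap.add_apply]
        ring
      smul_left := fun u v r => by
        simp only [map_smul, inner_smul_left, LinearMap.smul_apply, conj_trivial, smul_eq_mul]
        ring }
  let _ : SeminormedAddCommGroup V :=
    @InnerProductSpace.Core.toSeminormedAddCommGroup ℝ V _ _ _ core
  let _ : InnerProductSpace ℝ V := InnerProductSpace.ofCore core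
  have hin : ∀ u v : V, inner ℝ u v = inner ℝ (J u) (J v) + q u v := fun u v => rfl
  have hns : ∀ u : V, ‖u‖ ^ 2 = ‖J u‖ ^ 2 + q u u := by
    intro u
    rw [← real_inner_self_eq_norm_sq u, hin, real_inner_self_eq_norm_sq]
  have hJ : ∀ v : V, ‖J v‖ ≤ ‖v‖ := by
    intro v
    refine le_of_sq_le_sq ?_ (norm_nonneg v)
    rw [hns]
    linarith [hnonneg v]
  have hset : {v : V | ‖v‖ ≤ 1} = {v | ‖J v‖ ^ 2 + q v v ≤ 1} := by
    ext v
    simp only [Set.mem_ofPred_eq]
    rw [← hns]
    constructor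
    · intro h
      exact pow_le_one₀ (norm_nonneg v) h
    · intro h
      exact le_of_sq_le_sq (by simpa using h) zero_le_one
  obtain ⟨s, lam, h1, h2, h3, h4⟩ := A91_main J hJ hdense (by rw [hset]; exact htb)
  refine ⟨s, lam, h1, h2, h3, fun f hf => ?_⟩
  obtain ⟨u, hu1, hu2, hu3⟩ := h4 f hf
  refine ⟨u, hu1, ?_, fun v => ?_⟩
  · have h5 : Tendsto (fun kl : ℕ × ℕ => ‖u kl.1 - u kl.2‖ ^ 2) (atTop ×ˢ atTop) (𝓝 0) := by
      have := hu2.pow 2
      simpa using this
    refine squeeze_zero (fun kl => hnonneg _) (fun kl => ?_) h5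
    rw [hns]
    have := sq_nonneg ‖J (u kl.1 - u kl.2)‖
    linarith
  · have h5 := hu3 v
    have h6 : Tendsto (fun k => inner ℝ (J (u k)) (J v)) atTop (𝓝 (inner ℝ f (J v))) :=
      hu1.inner tendsto_const_nhds
    have h7 := h5.sub h6
    have h8 : (lam f + 1) * inner ℝ f (J v) - inner ℝ f (J v) = lam f * inner ℝ f (J v) := by ring
    rw [h8] at h7
    refine h7.congr fun k => ?_
    rw [hin]
    ring

end A

end Pool.Agent.helper43.MS
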